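import Pool.Agent.MWI.StmtsE

set_option autoImplicit false

/-!
# Squad MWI, row FCX (helper46): location of a factor without `t`
-/

namespace Pool.Agent.MWI.H46

open Pool.Agent.Helper14_MV Pool.Agent.Helper2_MV Pool.Agent.MWF Pool.Agent.MWI

theorem aux {M Y a' F B : List ℕ} (hF : ∀ c ∈ F, c % 3 ≠ 1)
    (hY : ∀ a l, Y = a :: l → a % 3 = 1) (h : M ++ Y = a' ++ (F ++ B)) :
    (∃ c, M = a' ++ (F ++ c) ∧ B = c ++ Y) ∨ (∃ Y', Y = Y' ++ (F ++ B) ∧ a' = M ++ Y') := by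
  rcases List.append_eq_append_iff.1 h with ⟨a2, h1, h2⟩ | ⟨c2, h1, h2⟩
  · exact Or.inr ⟨a2, h2, h1⟩
  · rcases List.append_eq_append_iff.1 h2 with ⟨a3, h3, h4⟩ | ⟨c3, h3, h4⟩
    · exact Or.inl ⟨a3, by rw [h1, h3], h4⟩
    · rcases c3 with _ | ⟨z, l⟩
      · rw [List.append_nil] at h3
        rw [List.nil_append] at h4
        exact Or.inl ⟨[], by rw [h1, h3, List.append_nil], by rw [h4, List.nil_append]⟩
      · exfalso
        exact hF z (by rw [h3]; simp) (hY z (l ++ B) (by rw [h4]; rfl))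

/-- row FCX -/
theorem fcx : FcxStmt := by
  intro X M Y A F B _ hF hX hY h
  rcases List.append_eq_append_iff.1 h with ⟨a1, h1, h2⟩ | ⟨c1, h1, h2⟩
  · rcases aux hF hY h2 with ⟨c, h3, h4⟩ | ⟨Y', h3, h4⟩
    · exact Or.inr (Or.inl ⟨a1, c, h3, h1, h4⟩)
    · exact Or.inr (Or.inr ⟨Y', h3, by rw [h1, h4]⟩)
  · rcases List.append_eq_append_iff.1 h2 with ⟨a3, h3, h4⟩ | ⟨c3, h3, h4⟩
    · exact Or.inl ⟨a3, by rw [h1, h3]⟩
    · rcases List.eq_nil_or_concat c1 with rfl | ⟨l, z, rfl⟩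
      · rw [List.append_nil] at h1
        rw [List.nil_append] at h3
        subst h3
        rcases aux (a' := []) hF hY (by rw [h4, List.nil_append]) with ⟨c, h5, h6⟩ | ⟨Y', h5, h6⟩
        · exact Or.inr (Or.inl ⟨[], c, h5, by rw [h1, List.append_nil], h6⟩)
        · refine Or.inr (Or.inr ⟨Y', h5, ?_⟩)
          rw [← h6, List.append_nil, h1]
      · exfalso
        have h5 : X = (A ++ l) ++ [z] := by
          rw [h1]
          simp
        exact hF z (by rw [h3]; simp) (hX z _ h5)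

end Pool.Agent.MWI.H46
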